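import Pool.Agent.H67.EE.Core

/-! # Expansions in powers of 1 / b (helper67), for MP_58ae59_nt -/

set_option autoImplicit false

namespace Pool.Agent.H67.EE

open Filter Asymptotics Topology

/-- the function `1 / b` -/
noncomputable def X (b : ℕ) : ℝ := (b : ℝ)⁻¹

theorem X_tendsto : Tendsto X atTop (𝓝 0) := tendsto_inv_atTop_nhds_zero_nat

theorem X_pow (i j : ℕ) (h : j ≤ i) : (fun b => X b ^ i) =O[atTop] (fun b => X b ^ j) := by
  obtain ⟨m, rfl⟩ := Nat.exists_eq_add_of_le h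
  have h1 : (fun b => X b ^ m) =O[atTop] (fun _ => (1 : ℝ)) :=
    ((X_tendsto.pow m).isBigO_one ℝ)
  have h2 := (isBigO_refl (fun b => X b ^ j) atTop).mul h1
  refine h2.congr (fun b => ?_) (fun b => ?_)
  · ring
  · ring

theorem X_one {g : ℝ → ℝ} (hg : Continuous g) : (fun b => g (X b)) =O[atTop] (fun _ => (1 : ℝ)) :=
  ((hg.tendsto 0).comp X_tendsto).isBigO_one ℝ

theorem log_taylor (y : ℕ → ℝ) (hy : Tendsto y atTop (𝓝 0)) :
    (fun b => Real.log (1 + y b) - (y b - y b ^ 2 / 2 + y b ^ 3 / 3)) =O[atTop]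
      (fun b => y b ^ 4) := by
  have h1 : ∀ᶠ b in atTop, |y b| < 1 / 2 := by
    have := hy.abs
    rw [abs_zero] at this
    exact this.eventually (gt_mem_nhds (by norm_num))
  refine IsBigO.of_bound 2 (h1.mono fun b hb => ?_)
  have h2 := Real.abs_log_sub_add_sum_range_le (x := -y b) (by rw [abs_neg]; linarith) 3
  rw [abs_neg] at h2
  simp only [Finset.sum_range_succ, Finset.sum_range_zero, zero_add, sub_neg_eq_add] at h2
  have h3 : Real.log (1 + y b) - (y b - y b ^ 2 / 2 + y b ^ 3 / 3) =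
      (-y b) ^ (0 + 1) / ((0 : ℕ) + 1) + (-y b) ^ (1 + 1) / ((1 : ℕ) + 1) +
        (-y b) ^ (2 + 1) / ((2 : ℕ) + 1) + Real.log (1 + y b) := by
    push_cast
    ring
  rw [Real.norm_eq_abs, Real.norm_eq_abs, abs_pow, h3]
  refine (le_of_eq (by norm_num)).trans (h2.trans ?_)
  rw [div_le_iff₀ (by linarith)]
  have h4 : 0 ≤ |y b| ^ 4 := by positivity
  have h5 : |y b| ^ (3 + 1) = |y b| ^ 4 := rfl
  rw [h5]
  nlinarith [abs_nonneg (y b)]

theorem log_expansion (f : ℕ → ℝ) (a₁ a₂ a₃ : ℝ)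
    (hf : (fun b : ℕ => f b - (1 + a₁ / b + a₂ / b ^ 2 + a₃ / b ^ 3)) =O[atTop]
      (fun b : ℕ => 1 / (b : ℝ) ^ 4)) :
    Tendsto f atTop (𝓝 1) ∧
    (fun b : ℕ => Real.log (f b) - (a₁ * X b + (a₂ - a₁ ^ 2 / 2) * X b ^ 2 +
      (a₃ - a₁ * a₂ + a₁ ^ 3 / 3) * X b ^ 3)) =O[atTop] (fun b => X b ^ 4) := by
  obtain ⟨s, hs⟩ : ∃ s : ℕ → ℝ, s = fun b => a₁ * X b + a₂ * X b ^ 2 + a₃ * X b ^ 3 := ⟨_, rfl⟩
  obtain ⟨y, hy⟩ : ∃ y : ℕ → ℝ, y = fun b => f b - 1 := ⟨_, rfl⟩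
  have hr : (fun b => y b - s b) =O[atTop] (fun b => X b ^ 4) := by
    refine hf.congr (fun b => ?_) (fun b => ?_)
    · rw [hy, hs]
      simp only [X, div_eq_mul_inv, inv_pow]
      ring
    · simp only [X, one_div, inv_pow]
  have hs1 : s =O[atTop] X := by
    have h1 : (fun b => (a₁ + a₂ * X b + a₃ * X b ^ 2) * X b) =O[atTop] (fun b => 1 * X b) :=
      (X_one (g := fun x => a₁ + a₂ * x + a₃ * x ^ 2) (by fun_prop)).mul (isBigO_refl X atTop)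
    refine h1.congr (fun b => ?_) (fun b => by ring)
    rw [hs]; ring
  have hy1 : y =O[atTop] X := by
    have h1 : (fun b => X b ^ 4) =O[atTop] X := by
      refine (X_pow 4 1 (by norm_num)).congr (fun b => rfl) (fun b => by ring)
    have h2 := (hr.trans h1).add hs1
    refine h2.congr (fun b => by ring) (fun b => rfl)
  have hy0 : Tendsto y atTop (𝓝 0) := hy1.trans_tendsto X_tendsto
  have hs0 : Tendsto s atTop (𝓝 0) := hs1.trans_tendsto X_tendsto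
  have hf1 : Tendsto f atTop (𝓝 1) := by
    have h1 := hy0.add_const 1
    rw [zero_add] at h1
    refine h1.congr (fun b => ?_)
    rw [hy]; ring
  refine ⟨hf1, ?_⟩
  have h1 := log_taylor y hy0
  have h2 : (fun b => y b ^ 4) =O[atTop] (fun b => X b ^ 4) := hy1.pow 4
  have h3 := h1.trans h2
  -- difference of the cubic polynomials at `y` and at `s`
  have h4 : (fun b => (y b - s b) * (1 - (y b + s b) / 2 + (y b ^ 2 + y b * s b + s b ^ 2) / 3))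
      =O[atTop] (fun b => X b ^ 4 * 1) := by
    refine hr.mul ?_
    have h5 : Tendsto (fun b => 1 - (y b + s b) / 2 + (y b ^ 2 + y b * s b + s b ^ 2) / 3) atTop
        (𝓝 (1 - (0 + 0) / 2 + (0 ^ 2 + 0 * 0 + 0 ^ 2) / 3)) :=
      (tendsto_const_nhds.sub ((hy0.add hs0).div_const 2)).add
        ((((hy0.pow 2).add (hy0.mul hs0)).add (hs0.pow 2)).div_const 3)
    exact h5.isBigO_one ℝ
  have h6 : (fun b => X b ^ 4 * (-((a₂ ^ 2 + 2 * a₁ * a₃) + 2 * a₂ * a₃ * X b + a₃ ^ 2 * X b ^ 2) / 2 +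
      (3 * a₁ ^ 2 * a₂ + (3 * a₁ * a₂ ^ 2 + 3 * a₁ ^ 2 * a₃) * X b +
        (a₂ ^ 3 + 6 * a₁ * a₂ * a₃) * X b ^ 2 + (3 * a₁ * a₃ ^ 2 + 3 * a₂ ^ 2 * a₃) * X b ^ 3 +
        3 * a₂ * a₃ ^ 2 * X b ^ 4 + a₃ ^ 3 * X b ^ 5) / 3)) =O[atTop] (fun b => X b ^ 4 * 1) := by
    refine (isBigO_refl (fun b => X b ^ 4) atTop).mul ?_
    exact X_one (g := fun x => -((a₂ ^ 2 + 2 * a₁ * a₃) + 2 * a₂ * a₃ * x + a₃ ^ 2 * x ^ 2) / 2 +
      (3 * a₁ ^ 2 * a₂ + (3 * a₁ * a₂ ^ 2 + 3 * a₁ ^ 2 * a₃) * x +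
        (a₂ ^ 3 + 6 * a₁ * a₂ * a₃) * x ^ 2 + (3 * a₁ * a₃ ^ 2 + 3 * a₂ ^ 2 * a₃) * x ^ 3 +
        3 * a₂ * a₃ ^ 2 * x ^ 4 + a₃ ^ 3 * x ^ 5) / 3) (by fun_prop)
  have h7 := (h3.add (h4.congr_right (fun b => mul_one _))).add (h6.congr_right (fun b => mul_one _))
  refine h7.congr (fun b => ?_) (fun b => rfl)
  have h8 : f b = 1 + y b := by rw [hy]; ring
  rw [h8, hs]
  ring

end Pool.Agent.H67.EE
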