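import Pool.Agent.H76.EE.Chain

/-! # Rational multiples of e are not fast limit values of Q (Q e - P) (helper67), for MP_58ae59_nt -/

set_option autoImplicit false

namespace Pool.Agent.H67.EE

open Pool.Agent.H76.EE

theorem two_adic' (κ g a b : ℕ) (hκ : 0 < κ) (hg : 0 < g) (ha : Odd a) (hb : Odd b)
    (h : κ ^ 2 * a = 2 * g ^ 2 * b) : False := by
  have hp : Fact (Nat.Prime 2) := ⟨Nat.prime_two⟩
  have ha0 : a ≠ 0 := by rintro rfl; simp at ha
  have hb0 : b ≠ 0 := by rintro rfl; simp at hb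
  have hva : padicValNat 2 a = 0 := by
    apply padicValNat.eq_zero_of_not_dvd
    rw [← even_iff_two_dvd, Nat.not_even_iff_odd]; exact ha
  have hvb : padicValNat 2 b = 0 := by
    apply padicValNat.eq_zero_of_not_dvd
    rw [← even_iff_two_dvd, Nat.not_even_iff_odd]; exact hb
  have h1 : padicValNat 2 (κ ^ 2 * a) = 2 * padicValNat 2 κ := by
    rw [padicValNat.mul (pow_ne_zero _ hκ.ne') ha0, padicValNat.pow, hva, add_zero]
  have h2 : padicValNat 2 (2 * g ^ 2 * b) = 1 + 2 * padicValNat 2 g := by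
    rw [padicValNat.mul (mul_ne_zero two_ne_zero (pow_ne_zero _ hg.ne')) hb0,
      padicValNat.mul two_ne_zero (pow_ne_zero _ hg.ne'), padicValNat.pow, hvb, add_zero,
      padicValNat_self]
  rw [h, h2] at h1
  omega

/-- nonzero rational multiples of `e` -/
theorem core_ne (α β : ℕ) (hα : 0 < α) (hβ : 0 < β) (L : ℝ) (hL : |L| = e * α / β) (C : ℝ) :
    ∃ Q0 : ℕ, ∀ Q P : ℕ, Q0 ≤ Q → ¬ |(Q : ℝ) * (Q * e - P) - L| ≤ C / Q := by
  have he0 : 0 < e := Real.exp_pos 1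
  have hα2 : 0 < α ^ 2 := pow_pos hα 2
  have hLi : Irrational L := by
    rcases abs_choice L with h | h
    · rw [← h, hL]; exact irr α hα β hβ
    · have h2 : L = -(e * α / β) := by rw [← hL, h]; ring
      rw [h2]; exact (irr α hα β hβ).neg
  -- first level
  obtain ⟨Q1, h1⟩ := base e_irrational L hLi C
  obtain ⟨C1, s1⟩ := step α β hα hβ L hL C
  -- second level
  obtain ⟨Q2, h2⟩ := base e_irrational (-(e * (α : ℝ) ^ 2 / 2)) (irr' α hα) C1
  obtain ⟨C2, s2⟩ := step (α ^ 2) 2 hα2 two_pos (-(e * (α : ℝ) ^ 2 / 2))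
    (by rw [abs_neg, abs_of_pos (by positivity)]; push_cast; ring) C1
  -- third level
  obtain ⟨Q3, h3⟩ := base e_irrational (-(e * ((α ^ 2 : ℕ) : ℝ) ^ 2 / 2)) (irr' (α ^ 2) hα2) C2
  obtain ⟨Q2', s2'⟩ := s2 Q3
  obtain ⟨Q1', s1'⟩ := s1 (max Q2 Q2')
  refine ⟨max Q1 Q1', fun Q P hQ hQP => ?_⟩
  obtain ⟨n, G, hQG, hPG⟩ := h1 Q P (le_trans (le_max_left _ _) hQ) hQP
  obtain ⟨hn, hn'⟩ := s1' n G (by rw [← hQG]; exact le_trans (le_max_right _ _) hQ) (by
    rw [← hQG, ← hPG]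
    exact hQP)
  have hbig1 : max Q2 Q2' ≤ α * (2 * n + 1) := by
    refine hn.trans ?_
    nlinarith
  obtain ⟨n2, G2, hQ2, hP2⟩ := h2 _ _ (le_trans (le_max_left _ _) hbig1) hn'
  rw [hQ2, hP2] at hn'
  obtain ⟨hn2, hn2'⟩ := s2' n2 G2 (by rw [← hQ2]; exact le_trans (le_max_right _ _) hbig1) hn'
  have hbig2 : Q3 ≤ α ^ 2 * (2 * n2 + 1) := by
    refine hn2.trans ?_
    nlinarith
  obtain ⟨n3, G3, hQ3, hP3⟩ := h3 _ _ hbig2 hn2'
  -- contradiction
  have hG2 : 0 < G2 := by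
    rcases Nat.eq_zero_or_pos G2 with h | h
    · rw [h, zero_mul] at hQ2
      have : 0 < α * (2 * n + 1) := by positivity
      omega
    · exact h
  have hodd := (odd_AB n3).1
  apply two_adic' α G2 ((2 * n2 + 1) * A n3) (B n3) hα hG2
  · exact (Odd.mul ⟨n2, rfl⟩ hodd.1)
  · exact hodd.2
  · calc α ^ 2 * ((2 * n2 + 1) * A n3) = (α ^ 2 * (2 * n2 + 1)) * A n3 := by ring
      _ = G3 * B n3 * A n3 := by rw [hQ3]
      _ = (G3 * A n3) * B n3 := by ring
      _ = 2 * G2 ^ 2 * B n3 := by rw [← hP3]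

theorem exists_small (Q : ℕ) : ∃ n, (Q : ℝ) * E (n + 1) < 1 / 2 := by
  obtain ⟨m, hm⟩ : ∃ m, m = 27 * (4 * Q + 1) := ⟨_, rfl⟩
  refine ⟨m, ?_⟩
  have hB := (B_cube (m + 1)).2
  have hpow : 2 * (m + 1 + 1) + 1 ≤ (2 * (m + 1 + 1) + 1) ^ 3 := Nat.le_self_pow (by norm_num) _
  have hB3' : 4 * Q + 1 ≤ B (m + 1 + 1) := by omega
  have hB3 : (4 * Q + 1 : ℝ) ≤ B (m + 1 + 1) := by exact_mod_cast hB3'
  have hE := BE_le (m + 1)
  have hEp := E_pos (m + 1)
  have h1 : (4 * Q + 1 : ℝ) * E (m + 1) ≤ B (m + 1 + 1) * E (m + 1) :=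
    mul_le_mul_of_nonneg_right hB3 hEp.le
  linarith

/-- the value zero -/
theorem core_zero (C : ℝ) :
    ∃ Q0 : ℕ, ∀ Q P : ℕ, Q0 ≤ Q → ¬ |(Q : ℝ) * (Q * e - P)| ≤ C / Q := by
  obtain ⟨Q0, hQ0⟩ := exists_nat_gt (54 * (|C| + 1) ^ 2 * 8 + 8 * (|C| + 1) + 8)
  refine ⟨Q0, fun Q P hQ h => ?_⟩
  have hC0 := abs_nonneg C
  have hQr : (Q0 : ℝ) ≤ Q := by exact_mod_cast hQ
  have hpos : 0 ≤ 54 * (|C| + 1) ^ 2 * 8 := by positivity
  have hQ1 : 8 * (|C| + 1) + 8 < (Q : ℝ) := by linarith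
  have hQp : 0 < (Q : ℝ) := by linarith
  have hCQ : |(Q : ℝ) * (Q * e - P)| ≤ |C| / Q := by
    refine h.trans ?_
    gcongr
    exact le_abs_self C
  -- the first convergent with small error
  have hex := exists_small Q
  classical
  obtain ⟨n, hn⟩ : ∃ n, n = Nat.find hex := ⟨_, rfl⟩
  have hn1 : (Q : ℝ) * E (n + 1) < 1 / 2 := by rw [hn]; exact Nat.find_spec hex
  have hBn : (B (n + 1) : ℝ) ≤ 4 * Q := by
    rcases Nat.eq_zero_or_pos n with h0 | h0
    · rw [h0]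
      have : B (0 + 1) = 1 := by simp [B]
      rw [this]
      push_cast
      linarith
    · obtain ⟨k, rfl⟩ : ∃ k, n = k + 1 := ⟨n - 1, by omega⟩
      have hmin := Nat.find_min hex (m := k) (by omega)
      push Not at hmin
      have hb := BE_le (k + 1)
      have hEp := E_pos (k + 1)
      have hBp := Bpos (k + 1 + 1)
      nlinarith
  by_cases hD : (Q : ℤ) * A (n + 1) - P * B (n + 1) = 0
  · -- multiple of a convergent
    have h1 : (Q : ℤ) * A (n + 1) = P * B (n + 1) := by linarith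
    have h1' : Q * A (n + 1) = P * B (n + 1) := by exact_mod_cast h1
    have hcop := coprime_AB (n + 1)
    obtain ⟨G, hG⟩ : B (n + 1) ∣ Q := by
      have : B (n + 1) ∣ Q * A (n + 1) := ⟨P, by rw [h1']; ring⟩
      exact hcop.symm.dvd_of_dvd_mul_right this
    have hBpn := (B_pos (n + 1)).1
    have hP : P = G * A (n + 1) := by
      have h2 : B (n + 1) * (G * A (n + 1)) = B (n + 1) * P := by
        calc B (n + 1) * (G * A (n + 1)) = (B (n + 1) * G) * A (n + 1) := by ring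
          _ = P * B (n + 1) := by rw [← hG, h1']
          _ = B (n + 1) * P := by ring
      exact (Nat.eq_of_mul_eq_mul_left hBpn h2).symm
    have hGpos : 1 ≤ G := by
      rcases Nat.eq_zero_or_pos G with h0 | h0
      · rw [h0, mul_zero] at hG
        rw [hG] at hQp
        simp at hQp
      · exact h0
    have hGr : (1 : ℝ) ≤ G := by exact_mod_cast hGpos
    have hval : |(Q : ℝ) * (Q * e - P)| = (G : ℝ) ^ 2 * u (n + 1) := by
      have h2 : (Q : ℝ) * (Q * e - P) = (G : ℝ) ^ 2 * (B (n + 1) * δ (n + 1)) := by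
        rw [hP]
        conv_lhs => rw [hG]
        unfold δ
        push_cast
        ring
      rw [h2, abs_mul, abs_mul, abs_δ, abs_of_pos (Bpos (n + 1)), abs_of_nonneg (sq_nonneg _)]
      rfl
    have hu : u (n + 1) ≤ |C| / Q := by
      have := u_pos (n + 1)
      have h2 : u (n + 1) ≤ (G : ℝ) ^ 2 * u (n + 1) := by
        have : (1 : ℝ) ≤ (G : ℝ) ^ 2 := one_le_pow₀ hGr
        nlinarith
      rw [hval] at hCQ
      linarith
    -- lower bound for u
    have hn1' : 1 ≤ n := by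
      by_contra hlt
      have h0 : n = 0 := by omega
      rw [h0] at hn1
      have hE1 : E (0 + 1) = 3 - e := E_one
      have he : e < 2.7182818286 := Real.exp_one_lt_d9
      rw [hE1] at hn1
      nlinarith
    obtain ⟨k, rfl⟩ : ∃ k, n = k + 1 := ⟨n - 1, by omega⟩
    obtain ⟨d, hd0, hd1, hdu, -⟩ := u_bounds k
    obtain ⟨y, hy⟩ : ∃ y : ℝ, y = 2 * ((k + 2 : ℕ) : ℝ) + 1 := ⟨_, rfl⟩
    rw [← hy] at hdu
    have hy1 : 1 ≤ y := by rw [hy]; push_cast; linarith [(Nat.cast_nonneg k : (0 : ℝ) ≤ k)]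
    have hup := u_pos (k + 2)
    have hQu : (Q : ℝ) ≤ |C| * (2 * y) := by
      have h2 : (Q : ℝ) * u (k + 2) ≤ |C| := by
        have : u (k + 2) ≤ |C| / Q := hu
        rw [le_div_iff₀ hQp] at this
        linarith
      have h3 : 1 / u (k + 2) ≤ 2 * y := by rw [hdu]; linarith
      have h4 : (Q : ℝ) = (Q * u (k + 2)) * (1 / u (k + 2)) := by field_simp
      rw [h4]
      have h5 : 0 ≤ 1 / u (k + 2) := by positivity
      gcongr
    have hcube : y ^ 3 ≤ 27 * B (k + 2) := by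
      have := (B_cube (k + 2)).1
      rw [hy]
      exact_mod_cast this
    have hBQ : (B (k + 2) : ℝ) ≤ Q := by
      have h2 : B (k + 2) ≤ Q := Nat.le_of_dvd (by exact_mod_cast hQp) ⟨G, hG⟩
      exact_mod_cast h2
    have hy2 : y ^ 2 ≤ 54 * |C| := by
      have h2 : y * y ^ 2 ≤ y * (54 * |C|) := by nlinarith
      exact le_of_mul_le_mul_left h2 (by linarith)
    have hy3 : y ≤ 54 * |C| := by nlinarith
    have : (Q : ℝ) ≤ 108 * |C| ^ 2 := by nlinarith
    nlinarith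
  · -- not a multiple
    have hY := Y_bound (n + 1) (Q : ℤ) P (by exact_mod_cast hQp) (|C| / Q) (by exact_mod_cast hCQ)
    have hY1 : (1 : ℝ) ≤ |(((Q : ℤ) * A (n + 1) - P * B (n + 1) : ℤ) : ℝ)| := by
      rw [← Int.cast_abs]
      exact_mod_cast Int.one_le_abs hD
    have h2 : (1 : ℝ) ≤ B (n + 1) * (|C| / Q / Q) + Q * E (n + 1) := by
      refine hY1.trans ?_
      exact_mod_cast hY
    have h3 : (B (n + 1) : ℝ) * (|C| / Q / Q) ≤ 4 * |C| / Q := by
      have h4 : (B (n + 1) : ℝ) * (|C| / Q / Q) ≤ (4 * Q) * (|C| / Q / Q) := by gcongr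
      refine h4.trans (le_of_eq ?_)
      field_simp
    have h5 : 4 * |C| / Q ≤ 1 / 2 := by
      rw [div_le_iff₀ hQp]
      linarith
    linarith

/-- for a rational number `r` the values `Q (Q e - P)` do not approach `r e` at the rate `1 / Q` -/
theorem core (r : ℚ) (C : ℝ) :
    ∃ Q0 : ℕ, ∀ Q P : ℕ, Q0 ≤ Q → ¬ |(Q : ℝ) * (Q * e - P) - r * e| ≤ C / Q := by
  rcases eq_or_ne r 0 with rfl | hr
  · obtain ⟨Q0, h⟩ := core_zero C
    refine ⟨Q0, fun Q P hQ => ?_⟩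
    simpa using h Q P hQ
  · refine core_ne r.num.natAbs r.den (Int.natAbs_pos.2 (Rat.num_ne_zero.2 hr)) r.den_pos _ ?_ C
    have he0 : 0 < e := Real.exp_pos 1
    rw [abs_mul, abs_of_pos he0]
    have h1 : |(r : ℝ)| = (r.num.natAbs : ℝ) / r.den := by
      rw [Rat.cast_def, abs_div, Nat.abs_cast, ← Int.cast_abs, Nat.cast_natAbs]
    rw [h1]
    ring

end Pool.Agent.H67.EE
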