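import Pool.Agent.H67.EE.Asym

/-! # Families of powers (helper67), for MP_58ae59_nt -/

set_option autoImplicit false

namespace Pool.Agent.H67.EE

open Filter Asymptotics Topology Pool.Agent.H76.EE

/-- the main asymptotic identity -/
theorem asym (F : ℕ → ℝ) (c₁ c₂ c₃ : ℝ) (hc : c₁ ≠ 0)
    (hF : (fun b : ℕ => F b - (c₁ * X b + c₂ * X b ^ 2 + c₃ * X b ^ 3)) =O[atTop]
      (fun b => X b ^ 4)) :
    Tendsto (fun b : ℕ => (b : ℝ) * F b) atTop (𝓝 c₁) ∧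
    (fun b : ℕ => (c₁ * b - c₂) * ((c₁ * b - c₂) - c₁ ^ 2 / F b) - (c₁ * c₃ - c₂ ^ 2)) =O[atTop]
      X := by
  obtain ⟨H, hH⟩ : ∃ H : ℕ → ℝ, H = fun b : ℕ => (b : ℝ) * F b := ⟨_, rfl⟩
  obtain ⟨w, hw⟩ : ∃ w : ℕ → ℝ, w = fun b : ℕ => H b - (c₁ + c₂ * X b + c₃ * X b ^ 2) := ⟨_, rfl⟩
  have hb0 : ∀ᶠ b : ℕ in atTop, (b : ℝ) ≠ 0 := by
    filter_upwards [eventually_gt_atTop 0] with b hb
    exact_mod_cast hb.ne'
  have hwX : w =O[atTop] (fun b => X b ^ 3) := by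
    have h1 : (fun b : ℕ => (b : ℝ) * (F b - (c₁ * X b + c₂ * X b ^ 2 + c₃ * X b ^ 3))) =O[atTop]
        (fun b : ℕ => (b : ℝ) * X b ^ 4) := (isBigO_refl _ _).mul hF
    refine (h1.congr' ?_ ?_)
    · filter_upwards [hb0] with b hb
      rw [hw, hH]
      have : (b : ℝ) * X b = 1 := mul_inv_cancel₀ hb
      linear_combination (-(c₁ + c₂ * X b + c₃ * X b ^ 2)) * this
    · filter_upwards [hb0] with b hb
      have : (b : ℝ) * X b = 1 := mul_inv_cancel₀ hb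
      linear_combination (X b ^ 3) * this
  have hX1 : (fun b => X b ^ 3) =O[atTop] X :=
    (X_pow 3 1 (by norm_num)).congr (fun b => rfl) (fun b => by ring)
  have hw0 : Tendsto w atTop (𝓝 0) := (hwX.trans hX1).trans_tendsto X_tendsto
  have hHt : Tendsto H atTop (𝓝 c₁) := by
    have h1 : Tendsto (fun b => w b + (c₁ + c₂ * X b + c₃ * X b ^ 2)) atTop
        (𝓝 (0 + (c₁ + c₂ * 0 + c₃ * 0 ^ 2))) :=
      hw0.add ((tendsto_const_nhds.add (X_tendsto.const_mul c₂)).add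
        ((X_tendsto.pow 2).const_mul c₃))
    have h2 : (0 + (c₁ + c₂ * 0 + c₃ * 0 ^ 2) : ℝ) = c₁ := by ring
    rw [h2] at h1
    refine h1.congr (fun b => ?_)
    rw [hw]; ring
  refine ⟨by rw [← hH]; exact hHt, ?_⟩
  have hH0 : ∀ᶠ b in atTop, H b ≠ 0 := hHt.eventually_ne hc
  have hinv : (fun b => (H b)⁻¹) =O[atTop] (fun _ => (1 : ℝ)) := (hHt.inv₀ hc).isBigO_one ℝ
  -- the error terms
  have hT : (fun b : ℕ => (b : ℝ) ^ 2 * w b) =O[atTop] X := by
    have h1 : (fun b : ℕ => (b : ℝ) ^ 2 * w b) =O[atTop] (fun b : ℕ => (b : ℝ) ^ 2 * X b ^ 3) :=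
      (isBigO_refl _ _).mul hwX
    refine h1.congr' (EventuallyEq.refl _ _) ?_
    filter_upwards [hb0] with b hb
    have : (b : ℝ) * X b = 1 := mul_inv_cancel₀ hb
    linear_combination (X b * (b * X b) + X b) * this
  have hR1 : (fun b : ℕ => (c₁ - c₂ * X b) * ((c₁ - c₂ * X b) * ((b : ℝ) ^ 2 * w b)) * (H b)⁻¹)
      =O[atTop] (fun b => 1 * (1 * X b) * 1) :=
    ((X_one (g := fun x => c₁ - c₂ * x) (by fun_prop)).mul
      ((X_one (g := fun x => c₁ - c₂ * x) (by fun_prop)).mul hT)).mul hinv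
  have hR2 : (fun b : ℕ => (c₁ - c₂ * X b) * (-(c₂ * c₃)) * X b * (H b)⁻¹)
      =O[atTop] (fun b => 1 * X b * 1) :=
    ((X_one (g := fun x => (c₁ - c₂ * x) * (-(c₂ * c₃))) (by fun_prop)).mul
      (isBigO_refl X atTop)).mul hinv
  have hR3 : (fun b : ℕ => (c₁ * c₃ - c₂ ^ 2) * ((-(2 * c₂) - c₃ * X b) * X b - w b) * (H b)⁻¹)
      =O[atTop] (fun b => X b * 1) := by
    refine IsBigO.mul ?_ hinv
    refine IsBigO.const_mul_left (IsBigO.sub ?_ (hwX.trans hX1)) _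
    have h1 : (fun b => (-(2 * c₂) - c₃ * X b) * X b) =O[atTop] (fun b => 1 * X b) :=
      (X_one (g := fun x => -(2 * c₂) - c₃ * x) (by fun_prop)).mul (isBigO_refl X atTop)
    exact h1.congr_right (fun b => one_mul _)
  have hR1' := hR1.congr_right (g₂ := X) (fun b => by ring)
  have hR2' := hR2.congr_right (g₂ := X) (fun b => by ring)
  have hR3' := hR3.congr_right (g₂ := X) (fun b => by ring)
  refine ((hR1'.add hR2').add hR3').congr' ?_ (EventuallyEq.refl _ _)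
  filter_upwards [hb0, hH0] with b hb hHb
  have hX : (b : ℝ) = (X b)⁻¹ := by simp [X]
  have hXb : X b ≠ 0 := inv_ne_zero hb
  have hFb : F b = H b * X b := by
    have : (b : ℝ) * X b = 1 := mul_inv_cancel₀ hb
    rw [hH]
    linear_combination (-F b) * this
  have hwb : w b = H b - (c₁ + c₂ * X b + c₃ * X b ^ 2) := by rw [hw]
  rw [hwb, hFb, hX]
  field_simp
  ring

end Pool.Agent.H67.EE
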