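import Pool.Agent.H67.EE.Fam

/-! # Families of powers: conclusion (helper67), for MP_58ae59_nt -/

set_option autoImplicit false

namespace Pool.Agent.H67.EE

open Filter Asymptotics Topology Pool.Agent.H76.EE

theorem exists_den (c₁ c₂ : ℚ) : ∃ N : ℕ, 0 < N ∧ ∃ u v : ℤ, (u : ℝ) = N * (c₁ : ℝ) ∧
    (v : ℝ) = N * (c₂ : ℝ) := by
  refine ⟨c₁.den * c₂.den, Nat.mul_pos c₁.den_pos c₂.den_pos, c₁.num * c₂.den, c₂.num * c₁.den,
    ?_, ?_⟩
  · have h : (c₁ : ℝ) * c₁.den = c₁.num := by exact_mod_cast Rat.mul_den_eq_num c₁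
    push_cast
    linear_combination (-(c₂.den : ℝ)) * h
  · have h : (c₂ : ℝ) * c₂.den = c₂.num := by exact_mod_cast Rat.mul_den_eq_num c₂
    push_cast
    linear_combination (-(c₁.den : ℝ)) * h

/-- positive leading coefficient -/
theorem no_n_pos (F : ℕ → ℝ) (c₁ c₂ c₃ : ℚ) (hc : 0 < c₁)
    (hF : (fun b : ℕ => F b - ((c₁ : ℝ) * X b + (c₂ : ℝ) * X b ^ 2 + (c₃ : ℝ) * X b ^ 3)) =O[atTop]
      (fun b => X b ^ 4)) (k : ℕ) (hk : 0 < k) :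
    ∀ᶠ b : ℕ in atTop, ∀ n : ℕ, (k : ℝ) * e ≠ n * F b := by
  have he0 : 0 < e := Real.exp_pos 1
  have hcr : (0 : ℝ) < c₁ := by exact_mod_cast hc
  have hkr : (0 : ℝ) < k := by exact_mod_cast hk
  obtain ⟨-, hA⟩ := asym F c₁ c₂ c₃ hcr.ne' hF
  obtain ⟨N, hN, u, v, hu, hv⟩ := exists_den c₁ c₂
  have hNr : (0 : ℝ) < N := by exact_mod_cast hN
  obtain ⟨Q, hQ⟩ : ∃ Q : ℕ → ℤ, Q = fun b : ℕ => (k : ℤ) * N * (u * b - v) := ⟨_, rfl⟩
  have hQr : ∀ b : ℕ, (Q b : ℝ) = k * N ^ 2 * (c₁ * b - c₂) := by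
    intro b
    rw [hQ]
    push_cast
    rw [hu, hv]
    ring
  have hkN : (0 : ℝ) < k * N ^ 2 := by positivity
  -- `Q` tends to infinity
  have hQt : Tendsto (fun b : ℕ => (Q b : ℝ)) atTop atTop := by
    have h1 : Tendsto (fun b : ℕ => (k * N ^ 2 : ℝ) * ((c₁ : ℝ) * b + -(c₂ : ℝ))) atTop atTop :=
      (tendsto_atTop_add_const_right _ _
        (tendsto_natCast_atTop_atTop.const_mul_atTop hcr)).const_mul_atTop hkN
    refine h1.congr (fun b => ?_)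
    rw [hQr b]
    ring
  have hXQ : X =O[atTop] (fun b => 1 / (Q b : ℝ)) := by
    have h1 : Tendsto (fun b : ℕ => (k * N ^ 2 : ℝ) * (c₁ - c₂ * X b)) atTop
        (𝓝 ((k * N ^ 2 : ℝ) * (c₁ - c₂ * 0))) :=
      (tendsto_const_nhds.sub (X_tendsto.const_mul _)).const_mul _
    have h2 : (fun b : ℕ => (k * N ^ 2 : ℝ) * (c₁ - c₂ * X b) * (1 / (Q b : ℝ))) =O[atTop]
        (fun b => 1 * (1 / (Q b : ℝ))) := (h1.isBigO_one ℝ).mul (isBigO_refl _ _)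
    refine h2.congr' ?_ (Eventually.of_forall fun b => one_mul _)
    filter_upwards [hQt.eventually_gt_atTop 0, eventually_gt_atTop 0] with b hb hb0
    have hbr : (b : ℝ) ≠ 0 := by exact_mod_cast hb0.ne'
    have h3 : (b : ℝ) * X b = 1 := mul_inv_cancel₀ hbr
    rw [mul_one_div, div_eq_iff hb.ne', hQr b]
    linear_combination (-(k * N ^ 2 * c₁ : ℝ)) * h3
  obtain ⟨r, hr⟩ : ∃ r : ℚ, r = k ^ 2 * N ^ 4 * (c₁ * c₃ - c₂ ^ 2) := ⟨_, rfl⟩
  have hrr : (r : ℝ) = k ^ 2 * N ^ 4 * (c₁ * c₃ - c₂ ^ 2) := by rw [hr]; push_cast; ring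
  obtain ⟨G, hG⟩ : ∃ G : ℕ → ℝ, G = fun b : ℕ => ((c₁ : ℝ) * b - c₂) * ((c₁ * b - c₂) - (c₁ : ℝ) ^ 2 / F b) := ⟨_, rfl⟩
  have hG1 : (fun b => (k ^ 2 * N ^ 4 * e : ℝ) * (G b - (c₁ * c₃ - c₂ ^ 2))) =O[atTop]
      (fun b => 1 / (Q b : ℝ)) := by
    rw [hG]
    exact (hA.const_mul_left _).trans hXQ
  obtain ⟨C, hC⟩ := hG1.bound
  obtain ⟨Q0, hcore⟩ := core r C
  filter_upwards [hC, hQt.eventually_gt_atTop 0, hQt.eventually_ge_atTop (Q0 : ℝ)] with b h1 h2 h3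
  intro n hn
  have hn0 : n ≠ 0 := by
    rintro rfl
    have : 0 < (k : ℝ) * e := by positivity
    rw [hn] at this
    simp at this
  have hnr : (0 : ℝ) < n := by exact_mod_cast Nat.pos_of_ne_zero hn0
  have hFb : 0 < F b := by
    have : 0 < (n : ℝ) * F b := by rw [← hn]; positivity
    exact (mul_pos_iff_of_pos_left hnr).1 this
  have hQb : 0 < Q b := by exact_mod_cast h2
  obtain ⟨q, hq⟩ : ∃ q : ℕ, Q b = q := ⟨(Q b).toNat, (Int.toNat_of_nonneg hQb.le).symm⟩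
  have hqr : (Q b : ℝ) = q := by rw [hq]; push_cast; rfl
  have hq0 : (0 : ℝ) < q := by rw [← hqr]; exact h2
  apply hcore q (n * u.natAbs ^ 2)
  · rw [hqr] at h3
    exact_mod_cast h3
  · rw [Real.norm_eq_abs, Real.norm_eq_abs, hqr, abs_of_pos (by positivity : 0 < 1 / (q : ℝ))] at h1
    have h4 : ((u.natAbs : ℝ)) ^ 2 = (N * c₁) ^ 2 := by
      rw [← hu, ← sq_abs (u : ℝ), ← Int.cast_abs, Nat.cast_natAbs]
    have h5 : (q : ℝ) * (q * e - ((n * u.natAbs ^ 2 : ℕ) : ℝ)) - r * e =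
        (k ^ 2 * N ^ 4 * e : ℝ) * (G b - (c₁ * c₃ - c₂ ^ 2)) := by
      push_cast
      rw [h4, ← hqr, hQr b, hG, hrr]
      have h6 : (n : ℝ) = k * e / F b := by rw [hn]; field_simp
      rw [h6]
      field_simp
    rw [h5]
    refine h1.trans (le_of_eq ?_)
    ring

theorem no_n (f : ℕ → ℝ) (a₁ a₂ a₃ : ℚ) (h₁ : a₁ ≠ 0)
    (hf : (fun b : ℕ => f b - (1 + (a₁ : ℝ) / b + (a₂ : ℝ) / b ^ 2 + (a₃ : ℝ) / b ^ 3)) =O[atTop]
      (fun b : ℕ => 1 / (b : ℝ) ^ 4)) (k : ℕ) (hk : 0 < k) :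
    ∀ᶠ b : ℕ in atTop, ∀ n : ℕ, Real.exp e ^ k ≠ f b ^ n := by
  have he0 : 0 < e := Real.exp_pos 1
  have hkr : (0 : ℝ) < k := by exact_mod_cast hk
  obtain ⟨hf1, hlog⟩ := log_expansion f a₁ a₂ a₃ hf
  have hpos : ∀ᶠ b in atTop, 0 < f b := hf1.eventually (lt_mem_nhds one_pos)
  have hexp : Real.exp e ^ k = Real.exp (k * e) := by rw [← Real.exp_nat_mul]
  rcases lt_or_gt_of_ne h₁ with hneg | hgt
  · have hlt : (a₁ : ℝ) < 0 := by exact_mod_cast hneg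
    obtain ⟨hT, -⟩ := asym (fun b => Real.log (f b)) a₁ _ _ hlt.ne hlog
    filter_upwards [hpos, hT.eventually (gt_mem_nhds hlt), eventually_gt_atTop 0] with b h1 h2 h3 n hn
    have hbr : (0 : ℝ) < b := by exact_mod_cast h3
    have h4 : Real.log (f b) < 0 := by
      by_contra hge
      push Not at hge
      have := mul_nonneg hbr.le hge
      linarith
    have h5 : f b ≤ 1 := by
      by_contra hge
      push Not at hge
      have := Real.log_pos hge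
      linarith
    have h6 : f b ^ n ≤ 1 := pow_le_one₀ h1.le h5
    have h7 : 1 < Real.exp (k * e) := Real.one_lt_exp_iff.2 (by positivity)
    rw [hexp] at hn
    linarith
  · have h := no_n_pos (fun b => Real.log (f b)) a₁ (a₂ - a₁ ^ 2 / 2)
      (a₃ - a₁ * a₂ + a₁ ^ 3 / 3) hgt (by push_cast; exact hlog) k hk
    filter_upwards [hpos, h] with b h1 h2 n hn
    apply h2 n
    rw [hexp] at hn
    have h3 := congrArg Real.log hn
    rw [Real.log_exp, Real.log_pow] at h3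
    exact h3

/-- families of powers -/
theorem families (f : ℕ → ℝ) (a₁ a₂ a₃ : ℚ) (h₁ : a₁ ≠ 0)
    (hf : (fun b : ℕ => f b - (1 + (a₁ : ℝ) / b + (a₂ : ℝ) / b ^ 2 + (a₃ : ℝ) / b ^ 3)) =O[atTop]
      (fun b : ℕ => 1 / (b : ℝ) ^ 4)) (K : ℕ) :
    {t : ℕ × ℕ × ℕ | 1 ≤ t.1 ∧ t.1 ≤ K ∧
      Real.exp (Real.exp 1) ^ t.1 = f t.2.2 ^ t.2.1}.Finite := by
  have hev : ∀ᶠ b : ℕ in atTop, ∀ k ∈ Finset.Icc 1 K, ∀ n : ℕ, Real.exp e ^ k ≠ f b ^ n := by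
    rw [Filter.eventually_all_finset]
    intro k hk
    exact no_n f a₁ a₂ a₃ h₁ hf k (Finset.mem_Icc.1 hk).1
  obtain ⟨B0, hB0⟩ := eventually_atTop.1 hev
  refine Set.Finite.of_finite_image (f := fun t : ℕ × ℕ × ℕ => (t.1, t.2.2)) ?_ ?_
  · refine ((Set.finite_Icc 1 K).prod (Set.finite_lt_nat B0)).subset ?_
    rintro _ ⟨⟨k, n, b⟩, ⟨h1, h2, h3⟩, rfl⟩
    refine ⟨⟨h1, h2⟩, ?_⟩
    by_contra hlt
    have hle : B0 ≤ b := by simpa using hlt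
    exact hB0 b hle k (Finset.mem_Icc.2 ⟨h1, h2⟩) n h3
  · rintro ⟨k, n, b⟩ ⟨h1, h2, h3⟩ ⟨k', n', b'⟩ ⟨h1', h2', h3'⟩ hEq
    simp only [Prod.mk.injEq] at hEq
    obtain ⟨rfl, rfl⟩ := hEq
    have h4 : f b ^ n = f b ^ n' := h3.symm.trans h3'
    have h5 : 1 < |f b| := by
      by_contra hle
      push Not at hle
      have h6 : |f b ^ n| ≤ 1 := by
        rw [abs_pow]
        exact pow_le_one₀ (abs_nonneg _) hle
      have h7 : 1 < Real.exp (Real.exp 1) ^ k :=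
        one_lt_pow₀ (Real.one_lt_exp_iff.2 (Real.exp_pos 1)) (by simpa using Nat.one_le_iff_ne_zero.1 h1)
      have h8 : Real.exp (Real.exp 1) ^ k = f b ^ n := h3
      rw [← h8, abs_of_pos (by positivity)] at h6
      linarith
    have h9 : |f b| ^ n = |f b| ^ n' := by rw [← abs_pow, ← abs_pow, h4]
    have h10 : n = n' := pow_right_injective₀ (by linarith) h5.ne' h9
    rw [h10]

end Pool.Agent.H67.EE
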