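import Pool.Agent.H67.EE.Final

/-! # Families of powers: uniform form (helper67), for MP_58ae59_nt -/

set_option autoImplicit false

namespace Pool.Agent.H67.EE

open Filter Asymptotics Topology Pool.Agent.H76.EE

/-- powers of numbers which agree with a cubic polynomial in `1 / b` up to `C / b ^ 4` -/
theorem uniform (a₁ a₂ a₃ : ℚ) (h₁ : a₁ ≠ 0) (C : ℝ) (K : ℕ) :
    ∃ b₀ : ℕ, ∀ b : ℕ, b₀ ≤ b → ∀ k n : ℕ, 1 ≤ k → k ≤ K → ∀ x : ℝ,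
      |x - (1 + (a₁ : ℝ) / b + (a₂ : ℝ) / b ^ 2 + (a₃ : ℝ) / b ^ 3)| ≤ C / (b : ℝ) ^ 4 →
      Real.exp (Real.exp 1) ^ k ≠ x ^ n := by
  classical
  obtain ⟨T, hT⟩ : ∃ T : ℕ → ℝ, T = fun b : ℕ => 1 + (a₁ : ℝ) / b + (a₂ : ℝ) / b ^ 2 +
    (a₃ : ℝ) / b ^ 3 := ⟨_, rfl⟩
  obtain ⟨S, hS⟩ : ∃ S : ℕ → ℝ → Prop, S = fun b x => |x - T b| ≤ C / (b : ℝ) ^ 4 ∧
    ∃ k n : ℕ, 1 ≤ k ∧ k ≤ K ∧ Real.exp (Real.exp 1) ^ k = x ^ n := ⟨_, rfl⟩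
  obtain ⟨f, hf⟩ : ∃ f : ℕ → ℝ, f = fun b => if h : ∃ x, S b x then h.choose else T b :=
    ⟨_, rfl⟩
  have hf1 : ∀ b, (∃ x, S b x) → S b (f b) := by
    intro b hb
    rw [hf]
    simp only [dif_pos hb]
    exact hb.choose_spec
  have hfT : ∀ b, |f b - T b| ≤ |C| * |1 / (b : ℝ) ^ 4| := by
    intro b
    by_cases hb : ∃ x, S b x
    · have h := hf1 b hb
      rw [hS] at h
      refine h.1.trans ?_
      rw [← abs_mul, mul_one_div]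
      exact le_abs_self _
    · have h2 : f b = T b := by
        rw [hf]
        simp only [dif_neg hb]
      rw [h2, sub_self, abs_zero]
      positivity
  have hO : (fun b : ℕ => f b - (1 + (a₁ : ℝ) / b + (a₂ : ℝ) / b ^ 2 + (a₃ : ℝ) / b ^ 3))
      =O[atTop] (fun b : ℕ => 1 / (b : ℝ) ^ 4) := by
    refine IsBigO.of_bound |C| (Eventually.of_forall fun b => ?_)
    have h := hfT b
    rw [hT] at h
    exact h
  have hev : ∀ᶠ b : ℕ in atTop, ∀ k ∈ Finset.Icc 1 K, ∀ n : ℕ, Real.exp e ^ k ≠ f b ^ n := by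
    rw [Filter.eventually_all_finset]
    intro k hk
    exact no_n f a₁ a₂ a₃ h₁ hO k (Finset.mem_Icc.1 hk).1
  obtain ⟨b₀, hb₀⟩ := eventually_atTop.1 hev
  refine ⟨b₀, fun b hb k n hk hkK x hx hEq => ?_⟩
  have hex : ∃ x, S b x := by
    refine ⟨x, ?_⟩
    rw [hS, hT]
    exact ⟨hx, k, n, hk, hkK, hEq⟩
  have h := hf1 b hex
  rw [hS] at h
  obtain ⟨-, k', n', hk', hkK', hEq'⟩ := h
  exact hb₀ b hb k' (Finset.mem_Icc.2 ⟨hk', hkK'⟩) n' hEq'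

end Pool.Agent.H67.EE
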